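import Pool.Agent.Helper98.ZB.Stmts
import Pool.Agent.Helper92.ZA.ZKB

/-!
Row ZBK of the sheet ZB: the criterion of Katai with finitely many primes and an explicit constant
(the proof of ZKB by helper92).
-/

open MeasureTheory Filter Topology Finset
open scoped ComplexConjugate

namespace Pool.Agent.Helper89.ZB

open Pool.Agent.Helper16.MD (MS PB Am RW Rich)
open Pool.Agent.Helper98.ZB (ST_ZBK)
open Pool.Agent.Helper92.ZA (sq_le_two_pow)

theorem st_ZBK (hkt : Pool.Agent.Helper16.AZ.ST_KT1) (hw : Pool.Agent.Helper16.MD.ST_WND) :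
    ST_ZBK := by
  intro η hη hη1 P₀
  obtain ⟨K, hK2, hK⟩ := hw (64 / η ^ 2)
  obtain ⟨I₂, hI₂⟩ := pow_unbounded_of_one_lt (24 / η) (one_lt_two : (1 : ℝ) < 2)
  obtain ⟨I₃, hI₃⟩ := exists_nat_gt (4 * (4096 / η ^ 2))
  obtain ⟨I, hI⟩ : ∃ I : ℕ, I = I₂ + I₃ + P₀ + 4 := ⟨_, rfl⟩
  refine ⟨2 ^ (K * I + 1), fun a ha h => ?_⟩
  by_contra hcon
  have hfreq : ∃ᶠ N : ℕ in atTop, η * N ≤ ‖MS a N‖ := by
    rw [Filter.not_eventually] at hcon
    exact hcon.mono fun N hN => (not_le.1 hN).le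
  have hmem : ∀ i ∈ RW 1 I K, I ≤ i ∧ i < K * I ∧ 2 ^ i ≤ 4 * i * (PB 1 i).card := by
    intro i hi
    unfold RW at hi
    rw [Finset.mem_filter, Finset.mem_Ico] at hi
    exact ⟨hi.1.1, hi.1.2, hi.2⟩
  have h24 : ∀ i ∈ RW 1 I K, 24 / η ≤ (2 : ℝ) ^ i := by
    intro i hi
    have h1 : I ≤ i := (hmem i hi).1
    exact hI₂.le.trans (pow_le_pow_right₀ one_le_two (by omega))
  have hAm : 64 / η ^ 2 ≤ Am 1 (RW 1 I K) :=
    hK I 1 (by omega) le_rfl (Nat.one_le_two_pow)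
  obtain ⟨i, hiR, hΓ⟩ := hkt η (RW 1 I K) a hη ha h24 hAm hfreq
  obtain ⟨hIi, hiK, hrich⟩ := hmem i hiR
  have hpb : ∀ p ∈ PB 1 i, p.Prime ∧ P₀ ≤ p ∧ p ≤ 2 ^ (K * I + 1) := by
    intro p hp
    unfold PB at hp
    rw [Finset.mem_filter, Finset.mem_Ioc] at hp
    refine ⟨hp.2.1, ?_, ?_⟩
    · have h1 : i < 2 ^ i := Nat.lt_two_pow_self
      omega
    · exact hp.1.2.trans (Nat.pow_le_pow_right (by norm_num) (by omega))
  have hres := hΓ (fun p p' => if p = p' then 1 else η ^ 2 / 4096) (by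
    intro p hp p' hp'
    obtain ⟨hp1, hp2, hp3⟩ := hpb p hp
    obtain ⟨hp1', hp2', hp3'⟩ := hpb p' hp'
    by_cases hpp : p = p'
    · subst hpp
      simp only [if_true]
      refine ⟨zero_le_one, fun ε hε => ⟨0, fun M _ => ?_⟩⟩
      calc ‖∑ y ∈ Icc 1 M, a (p * y) * conj (a (p * y))‖ ≤ ∑ y ∈ Icc 1 M, (1 : ℝ) := by
            refine (norm_sum_le _ _).trans (Finset.sum_le_sum fun y _ => ?_)
            rw [norm_mul, RCLike.norm_conj]
            nlinarith [ha (p * y), norm_nonneg (a (p * y))]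
        _ = M := by simp
        _ ≤ (1 + ε) * M := by nlinarith [(Nat.cast_nonneg M : (0 : ℝ) ≤ M)]
    · simp only [if_neg hpp]
      refine ⟨by positivity, fun ε hε => ?_⟩
      obtain ⟨M₀, hM₀⟩ := eventually_atTop.1 (h p p' hp1 hp1' hpp hp2 hp2' hp3 hp3')
      refine ⟨M₀, fun M hM => (hM₀ M hM).trans ?_⟩
      exact mul_le_mul_of_nonneg_right (by linarith) (Nat.cast_nonneg M))
  obtain ⟨b, hb⟩ : ∃ b : ℝ, b = ((PB 1 i).card : ℝ) := ⟨_, rfl⟩
  have hsum : ∑ p ∈ PB 1 i, ∑ p' ∈ PB 1 i, (if p = p' then 1 else η ^ 2 / 4096 : ℝ) ≤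
      b + η ^ 2 / 4096 * b ^ 2 := by
    calc ∑ p ∈ PB 1 i, ∑ p' ∈ PB 1 i, (if p = p' then 1 else η ^ 2 / 4096 : ℝ)
        ≤ ∑ p ∈ PB 1 i, ∑ p' ∈ PB 1 i, ((if p = p' then 1 else 0 : ℝ) + η ^ 2 / 4096) := by
          refine Finset.sum_le_sum fun p _ => Finset.sum_le_sum fun p' _ => ?_
          have : 0 ≤ η ^ 2 / 4096 := by positivity
          by_cases hpp : p = p'
          · simp only [hpp, if_true]; linarith
          · simp only [if_neg hpp]; linarith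
      _ = b + η ^ 2 / 4096 * b ^ 2 := by
          simp only [Finset.sum_add_distrib, Finset.sum_ite_eq, Finset.sum_const, nsmul_eq_mul]
          rw [Finset.sum_congr rfl (fun p hp => if_pos hp)]
          simp only [Finset.sum_const, nsmul_eq_mul, mul_one, ← hb]
          ring
  have hres2 : (η / 32) ^ 2 * b ^ 2 ≤ b + η ^ 2 / 4096 * b ^ 2 := by
    rw [hb]
    rw [hb] at hsum
    exact hres.trans hsum
  have hi4 : 4 ≤ i := by omega
  have hbi : (i : ℝ) ≤ 4 * b := by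
    have h1 : i * i ≤ 4 * i * (PB 1 i).card := (sq_le_two_pow i hi4).trans hrich
    have h2 : i ≤ 4 * (PB 1 i).card := by
      have : i * i ≤ i * (4 * (PB 1 i).card) := by
        calc i * i ≤ 4 * i * (PB 1 i).card := h1
          _ = i * (4 * (PB 1 i).card) := by ring
      exact Nat.le_of_mul_le_mul_left this (by omega)
    rw [hb]
    exact_mod_cast h2
  have hI3i : (I₃ : ℝ) ≤ i := by exact_mod_cast (by omega : I₃ ≤ i)
  have hblarge : 4096 / η ^ 2 < b := by linarith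
  have hη2 : 0 < η ^ 2 := by positivity
  have h6 : 4096 < b * η ^ 2 := by
    rw [div_lt_iff₀ hη2] at hblarge
    exact hblarge
  have hb0 : 0 < b := by
    have : 0 < 4096 / η ^ 2 := by positivity
    linarith
  have h7 : (η / 32) ^ 2 * b ≤ 1 + η ^ 2 / 4096 * b := by
    have h8 : ((η / 32) ^ 2 * b) * b ≤ (1 + η ^ 2 / 4096 * b) * b := by nlinarith
    exact le_of_mul_le_mul_right h8 hb0
  nlinarith

end Pool.Agent.Helper89.ZB
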