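import Pool.Agent.Helper41.GY.MLA
import Pool.Agent.Helper98.ZB.Stmts

/-! ZMC: ergodic joinings of the powers of a totally ergodic tower, two sections (MP_7a8f48_an,
sheet ZB). The proof is the proof of GY.MLA of helper41 with two sections. -/

set_option linter.unusedSectionVars false

open MeasureTheory Filter Topology Finset
open scoped ComplexConjugate

namespace Pool.Agent.Helper89.ZB

open Pool.Agent.Helper98.TW (SA AM UF BF Sys IA Inc Lm Sys.iterate)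
open Pool.Agent.Helper98.GY (JY JJY)
open Pool.Agent.Helper98.TA (ST_MHA Tr)
open Pool.Agent.Helper98.ZB (ST_ZMC)
open Pool.Agent.Helper40.TWM (HQ St NK NC ST_MTV ST_MSK ST_MNK)
open Pool.Agent.Helper16.AZ (T E Op mm)
open Pool.Agent.Helper16.BZ (co Wk EE)
open Pool.Agent.Helper40.DZ (SK)
open Pool.Agent.Helper40.JZ (LM ST_LMF)
open Pool.Agent.Helper73.TWR
open Pool.Agent.Helper41.TWM (int_norm_le_sqrt dsum mean_cs mean_split ae_aesm)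
open Pool.Agent.Helper41.GY (corr)

/-- the estimate for fixed `H`, two sections -/
theorem two_le {Y : Type} [MeasurableSpace Y] {ν : Measure Y} [IsProbabilityMeasure ν]
    {S S' : Y → Y} {p q : ℕ} {κ : Measure (Y × Y)} (hJ : JY S ν p q κ) (hS : Sys ν S S')
    {C : SA Y} (hC : Lm C) {ε : ℝ} (hε : 0 ≤ ε)
    (hE : ∀ F : Y → ℂ, Measurable F → MemLp F 2 ν → ν[F|C] =ᵐ[ν] 0 →
      JJY κ F ≤ ε * ∫ x, ‖F x‖ ^ 2 ∂ν) {d : ℕ} {φ : Y → Op d} {c c' : Y → E d}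
    (hφ : AEStronglyMeasurable φ ν) (hu : ∀ x, φ x ∈ unitary (Op d))
    (hc : AEStronglyMeasurable c ν) (hc' : AEStronglyMeasurable c' ν) {B : ℝ}
    (hB : ∀ x, ‖c x‖ ≤ B) (hB' : ∀ x, ‖c' x‖ ≤ B)
    (hN : ∀ k k', NK ν S φ c k k' ≤ NC ν C S φ c k k' ∧
      NC ν C S φ c k k' - NK ν S φ c k k' =
        ∫ x, ‖(ν[EE S φ c k k'|C]) x - ∫ y, EE S φ c k k' y ∂ν‖ ^ 2 ∂ν)
    {H : ℕ} (hH : 1 ≤ H) :
    ‖∑ h ∈ range H, ∑ h' ∈ range H, ∫ z, EE S φ c (p * h) (p * h') z.1 *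
      conj (EE S φ c' (q * h) (q * h') z.2) ∂κ‖ / (H : ℝ) ^ 2 ≤
      √((∑ h ∈ range H, ∑ h' ∈ range H, NK ν S φ c (p * h) (p * h')) / (H : ℝ) ^ 2) *
      √((∑ h ∈ range H, ∑ h' ∈ range H, NK ν S φ c' (q * h) (q * h')) / (H : ℝ) ^ 2) +
      B ^ 2 * √(ε * (B ^ 2) ^ 2) + B ^ 2 *
      √((∑ h ∈ range H, ∑ h' ∈ range H, NC ν C S φ c (p * h) (p * h')) / (H : ℝ) ^ 2 -
        (∑ h ∈ range H, ∑ h' ∈ range H, NK ν S φ c (p * h) (p * h')) / (H : ℝ) ^ 2) := by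
  have hH0 : (0 : ℝ) < H := by exact_mod_cast hH
  have hE1 : ∀ k k', AEStronglyMeasurable (EE S φ c k k') ν := ae_aesm hS hφ hc
  have hE1' : ∀ k k', AEStronglyMeasurable (EE S φ c' k k') ν := ae_aesm hS hφ hc'
  have hEb : ∀ k k' x, ‖EE S φ c k k' x‖ ≤ B ^ 2 := fun k k' x =>
    Pool.Agent.Helper16.BZ.EE_norm S φ c hu B hB k k' x
  have hEb' : ∀ k k' x, ‖EE S φ c' k k' x‖ ≤ B ^ 2 := fun k k' x =>
    Pool.Agent.Helper16.BZ.EE_norm S φ c' hu B hB' k k' x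
  have hNK0 : ∀ k k', 0 ≤ NK ν S φ c k k' := fun k k' => sq_nonneg _
  have hNK0' : ∀ k k', 0 ≤ NK ν S φ c' k k' := fun k k' => sq_nonneg _
  have hD0 : ∀ k k', 0 ≤ NC ν C S φ c k k' - NK ν S φ c k k' :=
    fun k k' => sub_nonneg.2 (hN k k').1
  have key : ∀ h h', ‖∫ z, EE S φ c (p * h) (p * h') z.1 *
      conj (EE S φ c' (q * h) (q * h') z.2) ∂κ‖ ≤
      √(NK ν S φ c (p * h) (p * h')) * √(NK ν S φ c' (q * h) (q * h')) +
      B ^ 2 * √(ε * (B ^ 2) ^ 2) + B ^ 2 * (√(NC ν C S φ c (p * h) (p * h') -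
        NK ν S φ c (p * h) (p * h')) * √1) := by
    intro h h'
    have h1 := corr hJ hC hε hE (hE1 (p * h) (p * h')) (hE1' (q * h) (q * h')) (sq_nonneg B)
      (hEb _ _) (hEb' _ _)
    rw [← (hN (p * h) (p * h')).2] at h1
    have e : ∀ k k', √(NK ν S φ c k k') = ‖∫ x, EE S φ c k k' x ∂ν‖ :=
      fun k k' => Real.sqrt_sq (norm_nonneg _)
    have e' : ∀ k k', √(NK ν S φ c' k k') = ‖∫ x, EE S φ c' k k' x ∂ν‖ :=
      fun k k' => Real.sqrt_sq (norm_nonneg _)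
    rw [e, e', Real.sqrt_one, mul_one]
    exact h1
  have s1 : ‖∑ h ∈ range H, ∑ h' ∈ range H, ∫ z, EE S φ c (p * h) (p * h') z.1 *
      conj (EE S φ c' (q * h) (q * h') z.2) ∂κ‖ / (H : ℝ) ^ 2 ≤
      (∑ h ∈ range H, ∑ h' ∈ range H,
      (√(NK ν S φ c (p * h) (p * h')) * √(NK ν S φ c' (q * h) (q * h')) +
      B ^ 2 * √(ε * (B ^ 2) ^ 2) + B ^ 2 * (√(NC ν C S φ c (p * h) (p * h') -
        NK ν S φ c (p * h) (p * h')) * √1))) / (H : ℝ) ^ 2 := by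
    refine div_le_div_of_nonneg_right ?_ (sq_nonneg _)
    refine (norm_sum_le _ _).trans (sum_le_sum fun h _ => ?_)
    exact (norm_sum_le _ _).trans (sum_le_sum fun h' _ => key h h')
  refine s1.trans ?_
  have s2 : (∑ h ∈ range H, ∑ h' ∈ range H,
      (√(NK ν S φ c (p * h) (p * h')) * √(NK ν S φ c' (q * h) (q * h')) +
      B ^ 2 * √(ε * (B ^ 2) ^ 2) + B ^ 2 * (√(NC ν C S φ c (p * h) (p * h') -
        NK ν S φ c (p * h) (p * h')) * √1))) / (H : ℝ) ^ 2 =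
      (∑ h ∈ range H, ∑ h' ∈ range H,
        √(NK ν S φ c (p * h) (p * h')) * √(NK ν S φ c' (q * h) (q * h'))) /
        (H : ℝ) ^ 2 + B ^ 2 * √(ε * (B ^ 2) ^ 2) + B ^ 2 * ((∑ h ∈ range H, ∑ h' ∈ range H,
        √(NC ν C S φ c (p * h) (p * h') - NK ν S φ c (p * h) (p * h')) *
          √1) / (H : ℝ) ^ 2) := mean_split hH0 _ _ _ _
  rw [s2]
  have c1 := mean_cs H (F := fun h h' => NK ν S φ c (p * h) (p * h'))
    (G := fun h h' => NK ν S φ c' (q * h) (q * h')) (fun h h' => hNK0 _ _)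
    (fun h h' => hNK0' _ _)
  have c2 := mean_cs H (F := fun h h' => NC ν C S φ c (p * h) (p * h') -
    NK ν S φ c (p * h) (p * h')) (G := fun _ _ => 1) (fun h h' => hD0 _ _)
    (fun h h' => zero_le_one)
  have c3 : √((∑ _h ∈ range H, ∑ _h' ∈ range H, (1 : ℝ)) / (H : ℝ) ^ 2) = 1 := by
    simp only [sum_const, card_range, nsmul_eq_mul, mul_one]
    rw [← sq, div_self (by positivity), Real.sqrt_one]
  rw [c3, mul_one] at c2
  have c4 : (∑ h ∈ range H, ∑ h' ∈ range H, (NC ν C S φ c (p * h) (p * h') -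
      NK ν S φ c (p * h) (p * h'))) / (H : ℝ) ^ 2 =
      (∑ h ∈ range H, ∑ h' ∈ range H, NC ν C S φ c (p * h) (p * h')) / (H : ℝ) ^ 2 -
        (∑ h ∈ range H, ∑ h' ∈ range H, NK ν S φ c (p * h) (p * h')) / (H : ℝ) ^ 2 := by
    simp only [sum_sub_distrib, sub_div]
  rw [c4] at c2
  have c5 := mul_le_mul_of_nonneg_left c2 (sq_nonneg B)
  linarith

/-- ZMC -/
theorem st_ZMC (hMHA : ST_MHA) (hMTV : ST_MTV) (hMSK : ST_MSK) (hMNK : ST_MNK)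
    (hLMF : ST_LMF) : ST_ZMC := by
  intro Y _ _ ν _ S S' u A N d φ c c' hSt hTr hφm hφu hcm hcm' hcb hcb' ε hε
  have hS : Sys ν S S' := hSt.1 1
  obtain ⟨B1, hB1⟩ := hcb
  obtain ⟨B2, hB2⟩ := hcb'
  obtain ⟨B0, hB0⟩ : ∃ B0 : ℝ, B0 = max B1 B2 := ⟨_, rfl⟩
  have hB : ∀ x, ‖c x‖ ≤ B0 := fun x => (hB1 x).trans (by rw [hB0]; exact le_max_left _ _)
  have hB' : ∀ x, ‖c' x‖ ≤ B0 := fun x => (hB2 x).trans (by rw [hB0]; exact le_max_right _ _)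
  obtain ⟨V, hV⟩ : ∃ V : ℝ, V = B0 ^ 2 := ⟨_, rfl⟩
  have hV0 : 0 ≤ V := by rw [hV]; exact sq_nonneg _
  -- the constants
  obtain ⟨δ, hδ0, hδ⟩ : ∃ δ : ℝ, 0 < δ ∧ V * √δ ≤ ε / 4 := by
    refine ⟨(ε / (4 * (V + 1))) ^ 2, by positivity, ?_⟩
    rw [Real.sqrt_sq (by positivity)]
    rw [mul_div_assoc', div_le_div_iff₀ (by positivity) (by norm_num)]
    nlinarith
  obtain ⟨ε₁, hε₁, hε₁'⟩ : ∃ ε₁ : ℝ, 0 < ε₁ ∧ ∀ e, 0 ≤ e → e ≤ ε₁ → V * √(e * V ^ 2) ≤ ε / 4 := by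
    refine ⟨(ε / (4 * (V ^ 2 + 1))) ^ 2, by positivity, fun e he he' => ?_⟩
    rw [Real.sqrt_mul he, Real.sqrt_sq hV0]
    have h1 : √e ≤ ε / (4 * (V ^ 2 + 1)) := by
      rw [Real.sqrt_le_left (by positivity)]
      exact he'
    have h2 : V * (√e * V) ≤ V * ((ε / (4 * (V ^ 2 + 1))) * V) := by gcongr
    refine h2.trans ?_
    have h3 : V * ((ε / (4 * (V ^ 2 + 1))) * V) = V ^ 2 * ε / (4 * (V ^ 2 + 1)) := by ring
    rw [h3, div_le_div_iff₀ (by positivity) (by norm_num)]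
    nlinarith [sq_nonneg V]
  obtain ⟨p₀, R₀, K, η, hR₀, hη, hmtv⟩ := hMTV Y ν S S' d φ c hSt hφm hφu hcm
    ⟨B0, hB⟩ δ hδ0
  have hε2 : 0 < min η ε₁ := lt_min hη hε₁
  have hE1 : ∀ k k', AEStronglyMeasurable (EE S φ c k k') ν := ae_aesm hS hφm hcm
  have hEb : ∀ k k' x, ‖EE S φ c k k' x‖ ≤ B0 ^ 2 := fun k k' x =>
    Pool.Agent.Helper16.BZ.EE_norm S φ c hφu B0 hB k k' x
  obtain ⟨q₀, hq₀⟩ := hMHA Y ν S S' u A N hSt hTr R₀ (K * K)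
    (fun i => EE S φ c (finProdFinEquiv.symm i).1 (finProdFinEquiv.symm i).2) (min η ε₁) hε2
    (fun i => MemLp.of_bound (hE1 _ _) (B0 ^ 2) (Eventually.of_forall (hEb _ _)))
  refine ⟨max (max p₀ q₀) (R₀ ^ 2 + 1), fun p hp hpp q hq hqp hpq κ hJ => ?_⟩
  have hp1 : p₀ ≤ p := ((le_max_left _ _).trans (le_max_left _ _)).trans hp
  have hq1 : q₀ ≤ q := ((le_max_right _ _).trans (le_max_left _ _)).trans hq
  have hq2 : R₀ ^ 2 < q := by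
    have : R₀ ^ 2 + 1 ≤ q := (le_max_right _ _).trans hq
    omega
  obtain ⟨C, hHQ, hJJ, hG⟩ := hq₀ q hq1 hqp p hpp hpq κ hJ
  have hnk := hMNK Y ν S S' C d φ c hS hHQ.ia hφm hφu hcm ⟨B0, hB⟩
  have hnk' := hMNK Y ν S S' C d φ c' hS hHQ.ia hφm hφu hcm' ⟨B0, hB'⟩
  have hnc := hMSK Y ν S S' C d φ c hS hHQ.ia hφm hφu hcm ⟨B0, hB⟩
  have hLM : LM (NC ν C S φ c) p ≤ LM (NK ν S φ c) p + δ := by
    refine hmtv C p q hp1 hpp hqp hpq hq2 hHQ fun k hk k' hk' => ?_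
    rw [(hnk.2 k k').2.2]
    have := hG (finProdFinEquiv (⟨k, hk⟩, ⟨k', hk'⟩))
    simp only [Equiv.symm_apply_apply] at this
    exact this.trans (min_le_left _ _)
  -- the limits
  have l1 := (hLMF _ hnk.1).1 p hpp.one_le
  have l2 := (hLMF _ hnk'.1).1 q hqp.one_le
  have l3 := (hLMF _ hnc).1 p hpp.one_le
  have l4 := (((l1.sqrt).mul (l2.sqrt)).add (tendsto_const_nhds (x :=
    V * √(min η ε₁ * V ^ 2)))).add ((l3.sub l1).sqrt.const_mul V)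
  have b1 := hε₁' (min η ε₁) hε2.le (min_le_right _ _)
  have b2 : V * √(LM (NC ν C S φ c) p - LM (NK ν S φ c) p) ≤ ε / 4 := by
    refine le_trans (mul_le_mul_of_nonneg_left (Real.sqrt_le_sqrt ?_) hV0) hδ
    linarith
  have l5 := l4.eventually_le_const (u := √(LM (NK ν S φ c) p) *
      √(LM (NK ν S φ c') q) + ε) (by linarith)
  filter_upwards [l5, eventually_ge_atTop 1] with H h5 hH
  have hH0 : (0 : ℝ) < H := by exact_mod_cast hH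
  have := two_le hJ hS hHQ.ia.1 hε2.le hJJ hφm hφu hcm hcm' hB hB' (fun k k' =>
    ⟨(hnk.2 k k').1, (hnk.2 k k').2.2⟩) hH
  rw [← hV] at this
  exact (div_le_iff₀ (by positivity)).1 (this.trans h5)

end Pool.Agent.Helper89.ZB
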